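import Pool.Agent.W184.ZB.Defs

namespace Pool.Agent.W184.ZB.FIN

open Pool.Agent.W184.ZB SimpleGraph

theorem W_nonneg {V : Type} [Fintype V] (G : SimpleGraph V) (k : ℕ) :
    ∀ (T : ℕ) (z : Fin k → V) (s : V), 0 ≤ W G k T z s := by
  classical
  intro T
  induction T with
  | zero =>
    intro z s
    rw [W]
    split_ifs <;> norm_num
  | succ T ih =>
    intro z s
    rw [W]
    split_ifs
    · exact le_rfl
    · refine div_nonneg (Finset.sum_nonneg fun z' _ => ?_) (Finset.prod_nonneg fun i _ => by positivity)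
      split_ifs
      · exact le_rfl
      · exact Real.iSup_nonneg fun s' => ih _ _

theorem surv_nonneg {V : Type} [Fintype V] (G : SimpleGraph V) (k T : ℕ) : 0 ≤ surv G k T := by
  unfold surv
  exact div_nonneg (Finset.sum_nonneg fun z _ => Real.iSup_nonneg fun s => W_nonneg G k T z s)
    (by positivity)

theorem sProb_le {V : Type} [Fintype V] (G : SimpleGraph V) (k T : ℕ) :
    sProb G k ≤ surv G k T :=
  ciInf_le ⟨0, by rintro _ ⟨T, rfl⟩; exact surv_nonneg G k T⟩ T

theorem reach_card (n : ℕ) (hn : 3 ≤ n) (s : Fin n × Fin n) : (reach (torus n) s).card ≤ 5 := by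
  classical
  obtain ⟨m, rfl⟩ : ∃ m, n = m + 2 := ⟨n - 2, by omega⟩
  have hsub : reach (torus (m + 2)) s ⊆
      {s, (s.1 + 1, s.2), (s.1 - 1, s.2), (s.1, s.2 + 1), (s.1, s.2 - 1)} := by
    intro v hv
    simp only [reach, Finset.mem_filter, Finset.mem_univ, true_and] at hv
    rcases hv with rfl | hv
    · simp
    · rw [boxProd_adj] at hv
      simp only [Finset.mem_insert, Finset.mem_singleton]
      rcases hv with ⟨h1, h2⟩ | ⟨h1, h2⟩
      · rw [cycleGraph_adj] at h1
        rcases h1 with h1 | h1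
        · right; right; left
          refine Prod.ext ?_ h2.symm
          show v.1 = s.1 - 1
          rw [← h1]; abel
        · right; left
          refine Prod.ext ?_ h2.symm
          show v.1 = s.1 + 1
          rw [← h1]; abel
      · rw [cycleGraph_adj] at h1
        rcases h1 with h1 | h1
        · right; right; right; right
          refine Prod.ext h2.symm ?_
          show v.2 = s.2 - 1
          rw [← h1]; abel
        · right; right; right; left
          refine Prod.ext h2.symm ?_
          show v.2 = s.2 + 1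
          rw [← h1]; abel
  refine (Finset.card_le_card hsub).trans ?_
  exact (Finset.card_le_five)

theorem main (hU : S_UNION) (hM : S_MASS) (hN : S_NUM) (n : ℕ) (hn : 3 ≤ n) :
    (∀ k : ℕ, (100 : ℝ) * n ^ 2 ≤ k → sProb (torus n) k ≤ 1 / 2) ∧
      (zombieNumber (torus n) : ℝ) ≤ 100 * n ^ 2 := by
  have key : ∀ k : ℕ, (100 : ℝ) * n ^ 2 ≤ k → sProb (torus n) k ≤ 1 / 2 := by
    intro k hk
    obtain ⟨T, hT, hb⟩ := hN n k hn hk
    have hT2 : 3 * T + 1 ≤ n ^ 2 := by
      have : 3 * T + 1 ≤ n := by omega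
      nlinarith
    have hB : (0 : ℝ) ≤ (n : ℝ) ^ 2 - 1 - 3 * T := by
      have : (3 : ℝ) * T + 1 ≤ (n : ℝ) ^ 2 := by exact_mod_cast hT2
      linarith
    have : Nonempty (Fin n × Fin n) := ⟨(⟨0, by omega⟩, ⟨0, by omega⟩)⟩
    have h1 := hU (Fin n × Fin n) (torus n) k T 5 _ hB (reach_card n hn) (hM n T hn hT)
    have hc : (Fintype.card (Fin n × Fin n) : ℝ) = (n : ℝ) ^ 2 := by
      rw [Fintype.card_prod, Fintype.card_fin]
      push_cast
      ring
    rw [hc] at h1
    refine (sProb_le (torus n) k T).trans (h1.trans ?_)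
    exact_mod_cast hb
  refine ⟨key, ?_⟩
  have h2 : zombieNumber (torus n) ≤ 100 * n ^ 2 := by
    apply Nat.sInf_le
    show sProb (torus n) (100 * n ^ 2) ≤ 1 / 2
    apply key
    push_cast
    exact le_rfl
  exact_mod_cast h2

end Pool.Agent.W184.ZB.FIN
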