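import Pool.Agent.W184.ZB.Defs

namespace Pool.Agent.W184.ZB.NUM

open Pool.Agent.W184.ZB

theorem four_le (T : ℕ) : 4 * T + 10 ≤ 16 * 2 ^ T := by
  induction T with
  | zero => norm_num
  | succ T ih => rw [pow_succ]; omega

theorem pf : S_NUM := by
  intro n k hn hk
  have hcase : ((n - 7) / 4 = 0 ∨ 4 * ((n - 7) / 4) + 6 < n) ∧ n ≤ 4 * ((n - 7) / 4) + 10 ∧
      1 + 3 * ((n - 7) / 4) ≤ n := by omega
  obtain ⟨h1, h2, h3⟩ := hcase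
  generalize (n - 7) / 4 = T at h1 h2 h3
  refine ⟨T, h1, ?_⟩
  have hn0 : (3 : ℝ) ≤ n := by exact_mod_cast hn
  have hn2 : (0 : ℝ) < (n : ℝ) ^ 2 := by positivity
  have h3' : (1 : ℝ) + 3 * T ≤ n := by exact_mod_cast h3
  have hx : ((n : ℝ) ^ 2 - 1 - 3 * T) / (n : ℝ) ^ 2 = 1 - (1 + 3 * T) / (n : ℝ) ^ 2 := by
    field_simp
    ring
  have hx0 : 0 ≤ 1 - (1 + 3 * (T : ℝ)) / (n : ℝ) ^ 2 := by
    rw [sub_nonneg, div_le_one hn2]
    nlinarith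
  have hx1 : 1 - (1 + 3 * (T : ℝ)) / (n : ℝ) ^ 2 ≤ Real.exp (-((1 + 3 * (T : ℝ)) / (n : ℝ) ^ 2)) :=
    Real.one_sub_le_exp_neg _
  have hpow : (1 - (1 + 3 * (T : ℝ)) / (n : ℝ) ^ 2) ^ k ≤ Real.exp (-(100 * (1 + 3 * T))) := by
    calc (1 - (1 + 3 * (T : ℝ)) / (n : ℝ) ^ 2) ^ k
        ≤ (Real.exp (-((1 + 3 * (T : ℝ)) / (n : ℝ) ^ 2))) ^ k := pow_le_pow_left₀ hx0 hx1 k
      _ = Real.exp (k * (-((1 + 3 * (T : ℝ)) / (n : ℝ) ^ 2))) := by rw [← Real.exp_nat_mul]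
      _ ≤ Real.exp (-(100 * (1 + 3 * T))) := by
          apply Real.exp_le_exp.2
          have : 100 * (1 + 3 * (T : ℝ)) ≤ k * ((1 + 3 * (T : ℝ)) / (n : ℝ) ^ 2) := by
            rw [mul_div_assoc', le_div_iff₀ hn2]
            nlinarith [mul_le_mul_of_nonneg_right hk (by positivity : (0 : ℝ) ≤ 1 + 3 * T)]
          linarith
  rw [hx]
  have hexp : (2 : ℝ) ^ (100 * (1 + 3 * T)) ≤ Real.exp (100 * (1 + 3 * T)) := by
    have h2e : (2 : ℝ) ≤ Real.exp 1 := by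
      have := Real.add_one_le_exp (1 : ℝ)
      linarith
    calc (2 : ℝ) ^ (100 * (1 + 3 * T)) ≤ (Real.exp 1) ^ (100 * (1 + 3 * T)) :=
          pow_le_pow_left₀ (by norm_num) h2e _
      _ = Real.exp (100 * (1 + 3 * T)) := by
          rw [← Real.exp_nat_mul]
          congr 1
          push_cast
          ring
  have hnat : 2 * (n ^ 2 * 5 ^ T) ≤ 2 ^ (100 * (1 + 3 * T)) := by
    have h4 : n ≤ 16 * 2 ^ T := h2.trans (four_le T)
    calc 2 * (n ^ 2 * 5 ^ T) ≤ 2 * ((16 * 2 ^ T) ^ 2 * 8 ^ T) := by gcongr; norm_num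
      _ = 2 ^ (9 + 5 * T) := by
          have : (8 : ℕ) ^ T = 2 ^ (3 * T) := by rw [pow_mul]; norm_num
          rw [this, mul_pow, ← pow_mul]
          rw [show (9 + 5 * T) = 1 + (8 + (T * 2 + 3 * T)) by ring, pow_add 2 1, pow_add 2 8,
            pow_add 2 (T * 2)]
          norm_num
          ring
      _ ≤ 2 ^ (100 * (1 + 3 * T)) := Nat.pow_le_pow_right (by norm_num) (by omega)
  have hreal : 2 * ((n : ℝ) ^ 2 * 5 ^ T) ≤ Real.exp (100 * (1 + 3 * T)) := by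
    refine le_trans ?_ hexp
    exact_mod_cast hnat
  have hE : 0 < Real.exp (100 * (1 + 3 * (T : ℝ))) := Real.exp_pos _
  calc (n : ℝ) ^ 2 * 5 ^ T * (1 - (1 + 3 * (T : ℝ)) / (n : ℝ) ^ 2) ^ k
      ≤ (n : ℝ) ^ 2 * 5 ^ T * Real.exp (-(100 * (1 + 3 * T))) :=
        mul_le_mul_of_nonneg_left hpow (by positivity)
    _ = ((n : ℝ) ^ 2 * 5 ^ T) / Real.exp (100 * (1 + 3 * T)) := by
        rw [Real.exp_neg, div_eq_mul_inv]
    _ ≤ 1 / 2 := by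
        rw [div_le_iff₀ hE]
        linarith

end Pool.Agent.W184.ZB.NUM
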