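import Mathlib

/-!
# The zombie number of the toroidal grid is `O(n²)` (MP_34e428_co): definitions and interface
-/

namespace Pool.Agent.W184.ZB

open SimpleGraph

open scoped Classical in
/-- the neighbours of `z` that lie on a shortest path from `z` to `s` -/
noncomputable def closer {V : Type} [Fintype V] (G : SimpleGraph V) (z s : V) : Finset V :=
  Finset.univ.filter (fun v => G.Adj z v ∧ G.dist v s + 1 = G.dist z s)

open scoped Classical in
/-- the vertices to which a survivor at `s` can move -/
noncomputable def reach {V : Type} [Fintype V] (G : SimpleGraph V) (s : V) : Finset V :=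
  Finset.univ.filter (fun v => v = s ∨ G.Adj s v)

open scoped Classical in
/-- `W G k T z s`: the largest probability with which a survivor at `s` facing `k` zombies at the
positions `z` is not eaten during the next `T` rounds (a survivor at a vertex with a zombie is
eaten).  In each round each zombie `i` moves to a uniformly random element of `closer G (z i) s`,
independently, and then the survivor moves or stays. -/
noncomputable def W {V : Type} [Fintype V] (G : SimpleGraph V) (k : ℕ) :
    ℕ → (Fin k → V) → V → ℝ
  | 0, z, s => if ∃ i, z i = s then 0 else 1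
  | T + 1, z, s => if ∃ i, z i = s then 0 else
      (∑ z' ∈ Fintype.piFinset (fun i => closer G (z i) s),
        (if ∃ i, z' i = s then 0 else ⨆ s' : reach G s, W G k T z' s'.1)) /
      ∏ i, ((closer G (z i) s).card : ℝ)

/-- The probability that the survivor survives `T` rounds: the `k` zombies start at independent
uniformly random vertices, then the survivor chooses his vertex. -/
noncomputable def surv {V : Type} [Fintype V] (G : SimpleGraph V) (k T : ℕ) : ℝ :=
  (∑ z : Fin k → V, ⨆ s : V, W G k T z s) / (Fintype.card V : ℝ) ^ k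

/-- `s_k(G)`: the probability that the survivor survives for ever. -/
noncomputable def sProb {V : Type} [Fintype V] (G : SimpleGraph V) (k : ℕ) : ℝ :=
  ⨅ T : ℕ, surv G k T

/-- The zombie number. -/
noncomputable def zombieNumber {V : Type} [Fintype V] (G : SimpleGraph V) : ℕ :=
  sInf {k : ℕ | sProb G k ≤ 1 / 2}

/-- The toroidal `n × n` grid. -/
abbrev torus (n : ℕ) : SimpleGraph (Fin n × Fin n) := (cycleGraph n) □ (cycleGraph n)

/-! ## Mass -/

open scoped Classical in
/-- one zombie move of a mass distribution `μ` towards `s`; the mass at `s` is removed before and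
after the move -/
noncomputable def step {V : Type} [Fintype V] (G : SimpleGraph V) (μ : V → ℝ) (s v : V) : ℝ :=
  if v = s then 0 else
    ∑ u : V, if u ≠ s ∧ v ∈ closer G u s then μ u / ((closer G u s).card : ℝ) else 0

open scoped Classical in
/-- `Surv G T μ s B`: along every survivor trajectory of length `T` from `s`, at most `B` of the
mass `μ` survives -/
def Surv {V : Type} [Fintype V] (G : SimpleGraph V) : ℕ → (V → ℝ) → V → ℝ → Prop
  | 0, μ, s, B => ∑ v : V, (if v = s then 0 else μ v) ≤ B
  | T + 1, μ, s, B => ∀ s' ∈ reach G s, Surv G T (step G μ s) s' B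

/-- UNION: general union bound. -/
def S_UNION : Prop :=
  ∀ (V : Type) [Fintype V] [Nonempty V] (G : SimpleGraph V) (k T Δ : ℕ) (B : ℝ), 0 ≤ B →
    (∀ s : V, (reach G s).card ≤ Δ) → (∀ s : V, Surv G T (fun _ => 1) s B) →
    surv G k T ≤ (Fintype.card V : ℝ) * (Δ : ℝ) ^ T * (B / (Fintype.card V : ℝ)) ^ k

/-- FRAC: on the torus, the mass sent back to `v` from further away is at least one. -/
def S_FRAC : Prop :=
  ∀ (n : ℕ) (s v : Fin n × Fin n), 3 ≤ n → v ≠ s → 2 * (torus n).dist v s + 2 < n →
    ∃ F : Finset (Fin n × Fin n), (∀ u ∈ F, v ∈ closer (torus n) u s ∧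
      (torus n).dist u s = (torus n).dist v s + 1) ∧
      (1 : ℝ) ≤ ∑ u ∈ F, 1 / ((closer (torus n) u s).card : ℝ)

/-- MASS: on the torus at least `3` units of mass are caught in each of the first `T` rounds. -/
def S_MASS : Prop :=
  ∀ (n T : ℕ), 3 ≤ n → (T = 0 ∨ 4 * T + 6 < n) → ∀ s : Fin n × Fin n,
    Surv (torus n) T (fun _ => 1) s ((n : ℝ) ^ 2 - 1 - 3 * T)

/-- NUM: the numerical part. -/
def S_NUM : Prop :=
  ∀ (n k : ℕ), 3 ≤ n → (100 : ℝ) * n ^ 2 ≤ k → ∃ T : ℕ, (T = 0 ∨ 4 * T + 6 < n) ∧
    (n : ℝ) ^ 2 * 5 ^ T * (((n : ℝ) ^ 2 - 1 - 3 * T) / (n : ℝ) ^ 2) ^ k ≤ 1 / 2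

end Pool.Agent.W184.ZB
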