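import Pool.Agent.W184.ZB.Defs

/-! Project ZB, part FRAC: mass sent back to `v` on the toroidal grid. -/

set_option autoImplicit false

namespace Pool.Agent.W184.ZB.FRAC

open Pool.Agent.W184.ZB SimpleGraph

/-- the cyclic distance -/
def cdist (t : ℕ) (u v : Fin t) : ℕ :=
  min (max u.val v.val - min u.val v.val) (t - (max u.val v.val - min u.val v.val))

lemma adj_iff (t : ℕ) (ht : 3 ≤ t) (u v : Fin t) : (cycleGraph t).Adj u v ↔
    (u.val + 1 = v.val ∨ v.val + 1 = u.val ∨ (u.val = 0 ∧ v.val + 1 = t) ∨
      (v.val = 0 ∧ u.val + 1 = t)) := by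
  rw [cycleGraph_adj']
  obtain ⟨u, hu⟩ := u
  obtain ⟨v, hv⟩ := v
  simp only [Fin.sub_def]
  have h1 : (t - v + u) % t = if v ≤ u then u - v else t - v + u := by
    split_ifs with h
    · have : t - v + u = (u - v) + t := by omega
      rw [this, Nat.add_mod_right, Nat.mod_eq_of_lt (by omega)]
    · rw [Nat.mod_eq_of_lt (by omega)]
  have h2 : (t - u + v) % t = if u ≤ v then v - u else t - u + v := by
    split_ifs with h
    · have : t - u + v = (v - u) + t := by omega
      rw [this, Nat.add_mod_right, Nat.mod_eq_of_lt (by omega)]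
    · rw [Nat.mod_eq_of_lt (by omega)]
  rw [h1, h2]
  split_ifs <;> omega

/-- the vertex number `n` modulo `t` -/
def vert (t : ℕ) (ht : 3 ≤ t) (n : ℕ) : Fin t := ⟨n % t, Nat.mod_lt _ (by omega)⟩

lemma vert_adj (t : ℕ) (ht : 3 ≤ t) (n : ℕ) :
    (cycleGraph t).Adj (vert t ht n) (vert t ht (n + 1)) := by
  rw [adj_iff t ht]
  have h0 : n % t < t := Nat.mod_lt _ (by omega)
  have h1 : (n + 1) % t = if n % t + 1 = t then 0 else n % t + 1 := by
    rw [Nat.add_mod, Nat.mod_eq_of_lt (a := 1) (by omega)]
    split_ifs with h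
    · rw [h, Nat.mod_self]
    · rw [Nat.mod_eq_of_lt (by omega)]
  simp only [vert, h1]
  split_ifs <;> omega

lemma walk_exists (t : ℕ) (ht : 3 ≤ t) (n k : ℕ) :
    ∃ p : (cycleGraph t).Walk (vert t ht n) (vert t ht (n + k)), p.length = k := by
  induction k with
  | zero => exact ⟨Walk.nil, rfl⟩
  | succ k ih =>
    obtain ⟨p, hp⟩ := ih
    refine ⟨p.concat (vert_adj t ht (n + k)), ?_⟩
    rw [Walk.length_concat, hp]

lemma dist_le_of (t : ℕ) (ht : 3 ≤ t) (n k : ℕ) (u v : Fin t) (hu : n % t = u)
    (hv : (n + k) % t = v) : (cycleGraph t).dist u v ≤ k := by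
  obtain ⟨p, hp⟩ := walk_exists t ht n k
  have h1 : vert t ht n = u := Fin.ext hu
  have h2 : vert t ht (n + k) = v := Fin.ext hv
  have h3 := SimpleGraph.dist_le p
  rw [hp, h1, h2] at h3
  exact h3

lemma cdist_step (t : ℕ) (ht : 3 ≤ t) (u v w : Fin t) (h : (cycleGraph t).Adj u v) :
    cdist t u w ≤ cdist t v w + 1 := by
  rw [adj_iff t ht] at h
  have hu := u.2
  have hv := v.2
  have hw := w.2
  unfold cdist
  omega

lemma cdist_le_length (t : ℕ) (ht : 3 ≤ t) (u v : Fin t) (p : (cycleGraph t).Walk u v) :
    cdist t u v ≤ p.length := by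
  induction p with
  | nil =>
    unfold cdist
    simp
  | cons h p ih =>
    rw [Walk.length_cons]
    exact le_trans (cdist_step t ht _ _ _ h) (Nat.add_le_add_right ih 1)

lemma dist_le_cdist (t : ℕ) (ht : 3 ≤ t) (u v : Fin t) (huv : u.val ≤ v.val) :
    (cycleGraph t).dist u v ≤ cdist t u v := by
  have hu := u.2
  have hv := v.2
  have h1 : (cycleGraph t).dist u v ≤ v.val - u.val := by
    apply dist_le_of t ht u.val (v.val - u.val) u v (Nat.mod_eq_of_lt hu)
    have : u.val + (v.val - u.val) = v.val := by omega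
    rw [this]
    exact Nat.mod_eq_of_lt hv
  have h2 : (cycleGraph t).dist v u ≤ t - (v.val - u.val) := by
    apply dist_le_of t ht v.val (t - (v.val - u.val)) v u (Nat.mod_eq_of_lt hv)
    have : v.val + (t - (v.val - u.val)) = u.val + t := by omega
    rw [this, Nat.add_mod_right]
    exact Nat.mod_eq_of_lt hu
  rw [SimpleGraph.dist_comm] at h2
  unfold cdist
  have h3 : max u.val v.val - min u.val v.val = v.val - u.val := by omega
  rw [h3]
  exact le_min h1 h2

theorem dist_eq (t : ℕ) (ht : 3 ≤ t) (u v : Fin t) : (cycleGraph t).dist u v = cdist t u v := by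
  apply le_antisymm
  · rcases le_total u.val v.val with h | h
    · exact dist_le_cdist t ht u v h
    · rw [SimpleGraph.dist_comm]
      have h1 := dist_le_cdist t ht v u h
      have h2 : cdist t v u = cdist t u v := by
        unfold cdist
        omega
      rw [h2] at h1
      exact h1
  · obtain ⟨p, hp⟩ := (cycleGraph_preconnected u v).exists_walk_length_eq_dist
    rw [← hp]
    exact cdist_le_length t ht u v p

theorem tdist (n : ℕ) (hn : 3 ≤ n) (x y : Fin n × Fin n) :
    (torus n).dist x y = cdist n x.1 y.1 + cdist n x.2 y.2 := by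
  rw [← dist_eq n hn, ← dist_eq n hn]
  unfold SimpleGraph.dist
  rw [edist_boxProd]
  have h1 : (cycleGraph n).edist x.1 y.1 ≠ ⊤ :=
    edist_ne_top_iff_reachable.2 (cycleGraph_preconnected x.1 y.1)
  have h2 : (cycleGraph n).edist x.2 y.2 ≠ ⊤ :=
    edist_ne_top_iff_reachable.2 (cycleGraph_preconnected x.2 y.2)
  exact ENat.toNat_add h1 h2

lemma cdist_eq_zero (n : ℕ) (a t : Fin n) (h : a = t) : cdist n a t = 0 := by
  subst h
  unfold cdist
  simp

lemma up (n : ℕ) (hn : 3 ≤ n) (a t : Fin n) (hat : a ≠ t) (h : 2 * cdist n a t + 2 < n) :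
    ∃ b : Fin n, (cycleGraph n).Adj b a ∧ cdist n b t = cdist n a t + 1 := by
  have ha := a.2
  have ht := t.2
  have hne : a.val ≠ t.val := fun e => hat (Fin.ext e)
  unfold cdist at h
  rcases lt_or_gt_of_ne hne with hlt | hgt
  · by_cases hc : 2 * (t.val - a.val) < n
    · by_cases h0 : a.val = 0
      · refine ⟨⟨n - 1, by omega⟩, ?_, ?_⟩
        · rw [adj_iff n hn]
          simp only
          omega
        · unfold cdist
          simp only
          omega
      · refine ⟨⟨a.val - 1, by omega⟩, ?_, ?_⟩
        · rw [adj_iff n hn]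
          simp only
          omega
        · unfold cdist
          simp only
          omega
    · refine ⟨⟨a.val + 1, by omega⟩, ?_, ?_⟩
      · rw [adj_iff n hn]
        right
        left
        rfl
      · unfold cdist
        simp only
        omega
  · by_cases hc : 2 * (a.val - t.val) < n
    · by_cases h0 : a.val + 1 = n
      · refine ⟨⟨0, by omega⟩, ?_, ?_⟩
        · rw [adj_iff n hn]
          right
          right
          left
          exact ⟨rfl, h0⟩
        · unfold cdist
          simp only
          omega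
      · refine ⟨⟨a.val + 1, by omega⟩, ?_, ?_⟩
        · rw [adj_iff n hn]
          right
          left
          rfl
        · unfold cdist
          simp only
          omega
    · refine ⟨⟨a.val - 1, by omega⟩, ?_, ?_⟩
      · rw [adj_iff n hn]
        simp only
        omega
      · unfold cdist
        simp only
        omega

lemma uniq (n : ℕ) (hn : 3 ≤ n) (a t b c : Fin n) (h : 2 * cdist n a t < n)
    (hb : (cycleGraph n).Adj a b) (hc : (cycleGraph n).Adj a c)
    (hb2 : cdist n b t + 1 = cdist n a t) (hc2 : cdist n c t + 1 = cdist n a t) : b = c := by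
  have ha := a.2
  have hb' := b.2
  have hc' := c.2
  have ht := t.2
  rw [adj_iff n hn] at hb hc
  unfold cdist at *
  apply Fin.ext
  rcases hb with hb | hb | hb | hb <;> rcases hc with hc | hc | hc | hc <;> omega

open scoped Classical in
/-- closer neighbours in the cycle -/
noncomputable def cl (n : ℕ) (a t : Fin n) : Finset (Fin n) :=
  Finset.univ.filter fun b => (cycleGraph n).Adj a b ∧ cdist n b t + 1 = cdist n a t

lemma cl_card (n : ℕ) (hn : 3 ≤ n) (a t : Fin n) (h : 2 * cdist n a t < n) :
    (cl n a t).card ≤ 1 := by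
  rw [Finset.card_le_one]
  intro b hb c hc
  rw [cl, Finset.mem_filter] at hb hc
  exact uniq n hn a t b c h hb.2.1 hc.2.1 hb.2.2 hc.2.2

lemma cl_card_zero (n : ℕ) (a t : Fin n) (h : a = t) : (cl n a t).card = 0 := by
  rw [Finset.card_eq_zero, cl, Finset.filter_eq_empty_iff]
  intro b _ hb
  rw [cdist_eq_zero n a t h] at hb
  omega

lemma closer_card (n : ℕ) (hn : 3 ≤ n) (u s : Fin n × Fin n) :
    (closer (torus n) u s).card ≤ (cl n u.1 s.1).card + (cl n u.2 s.2).card := by
  classical
  have hsub : closer (torus n) u s ⊆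
      (cl n u.1 s.1).image (fun b => (b, u.2)) ∪ (cl n u.2 s.2).image (fun b => (u.1, b)) := by
    intro w hw
    rw [closer, Finset.mem_filter] at hw
    obtain ⟨_, hadj, hd⟩ := hw
    rw [tdist n hn, tdist n hn] at hd
    rw [boxProd_adj] at hadj
    rw [Finset.mem_union, Finset.mem_image, Finset.mem_image]
    rcases hadj with ⟨h1, h2⟩ | ⟨h1, h2⟩
    · left
      refine ⟨w.1, ?_, ?_⟩
      · rw [cl, Finset.mem_filter]
        refine ⟨Finset.mem_univ _, h1, ?_⟩
        rw [h2] at hd
        omega
      · rw [h2]
    · right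
      refine ⟨w.2, ?_, ?_⟩
      · rw [cl, Finset.mem_filter]
        refine ⟨Finset.mem_univ _, h1, ?_⟩
        rw [h2] at hd
        omega
      · rw [h2]
  refine (Finset.card_le_card hsub).trans ((Finset.card_union_le _ _).trans ?_)
  exact Nat.add_le_add Finset.card_image_le Finset.card_image_le

lemma one_div_ge (k m : ℕ) (hk : 0 < k) (hkm : k ≤ m) : (1 : ℝ) / m ≤ 1 / k := by
  apply one_div_le_one_div_of_le
  · exact_mod_cast hk
  · exact_mod_cast hkm

theorem pf : S_FRAC := by
  classical
  intro n s v hn hvs hd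
  rw [tdist n hn] at hd
  have memv : ∀ u : Fin n × Fin n, (torus n).Adj u v →
      (torus n).dist u s = (torus n).dist v s + 1 → v ∈ closer (torus n) u s := by
    intro u hu hdu
    rw [closer, Finset.mem_filter]
    exact ⟨Finset.mem_univ _, hu, hdu.symm⟩
  by_cases h1 : v.1 = s.1
  · by_cases h2 : v.2 = s.2
    · exact absurd (Prod.ext h1 h2) hvs
    · have hz := cdist_eq_zero n v.1 s.1 h1
      obtain ⟨b, hb, hbd⟩ := up n hn v.2 s.2 h2 (by omega)
      have hA : (torus n).Adj (v.1, b) v := by
        rw [boxProd_adj]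
        right
        exact ⟨hb, rfl⟩
      have hD : (torus n).dist (v.1, b) s = (torus n).dist v s + 1 := by
        rw [tdist n hn, tdist n hn]
        simp only
        omega
      refine ⟨{(v.1, b)}, ?_, ?_⟩
      · intro u hu
        rw [Finset.mem_singleton] at hu
        subst hu
        exact ⟨memv _ hA hD, hD⟩
      · rw [Finset.sum_singleton]
        have hc := closer_card n hn (v.1, b) s
        have e1 : (cl n (v.1, b).1 s.1).card = 0 := cl_card_zero n v.1 s.1 h1
        have e2 : (cl n (v.1, b).2 s.2).card ≤ 1 := cl_card n hn b s.2 (by omega)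
        have hpos : 0 < (closer (torus n) (v.1, b) s).card :=
          Finset.card_pos.2 ⟨v, memv _ hA hD⟩
        have := one_div_ge _ 1 hpos (by omega)
        simpa using this
  · by_cases h2 : v.2 = s.2
    · have hz := cdist_eq_zero n v.2 s.2 h2
      obtain ⟨b, hb, hbd⟩ := up n hn v.1 s.1 h1 (by omega)
      have hA : (torus n).Adj (b, v.2) v := by
        rw [boxProd_adj]
        left
        exact ⟨hb, rfl⟩
      have hD : (torus n).dist (b, v.2) s = (torus n).dist v s + 1 := by
        rw [tdist n hn, tdist n hn]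
        simp only
        omega
      refine ⟨{(b, v.2)}, ?_, ?_⟩
      · intro u hu
        rw [Finset.mem_singleton] at hu
        subst hu
        exact ⟨memv _ hA hD, hD⟩
      · rw [Finset.sum_singleton]
        have hc := closer_card n hn (b, v.2) s
        have e1 : (cl n (b, v.2).1 s.1).card ≤ 1 := cl_card n hn b s.1 (by omega)
        have e2 : (cl n (b, v.2).2 s.2).card = 0 := cl_card_zero n v.2 s.2 h2
        have hpos : 0 < (closer (torus n) (b, v.2) s).card :=
          Finset.card_pos.2 ⟨v, memv _ hA hD⟩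
        have := one_div_ge _ 1 hpos (by omega)
        simpa using this
    · obtain ⟨a, ha, had⟩ := up n hn v.1 s.1 h1 (by omega)
      obtain ⟨b, hb, hbd⟩ := up n hn v.2 s.2 h2 (by omega)
      have hA1 : (torus n).Adj (a, v.2) v := by
        rw [boxProd_adj]
        left
        exact ⟨ha, rfl⟩
      have hA2 : (torus n).Adj (v.1, b) v := by
        rw [boxProd_adj]
        right
        exact ⟨hb, rfl⟩
      have hD1 : (torus n).dist (a, v.2) s = (torus n).dist v s + 1 := by
        rw [tdist n hn, tdist n hn]
        simp only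
        omega
      have hD2 : (torus n).dist (v.1, b) s = (torus n).dist v s + 1 := by
        rw [tdist n hn, tdist n hn]
        simp only
        omega
      have hne : (a, v.2) ≠ (v.1, b) := by
        intro e
        have := congrArg Prod.fst e
        exact ha.ne this
      refine ⟨{(a, v.2), (v.1, b)}, ?_, ?_⟩
      · intro u hu
        rw [Finset.mem_insert, Finset.mem_singleton] at hu
        rcases hu with rfl | rfl
        · exact ⟨memv _ hA1 hD1, hD1⟩
        · exact ⟨memv _ hA2 hD2, hD2⟩
      · rw [Finset.sum_pair hne]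
        have hc1 := closer_card n hn (a, v.2) s
        have hc2 := closer_card n hn (v.1, b) s
        have e1 : (cl n (a, v.2).1 s.1).card ≤ 1 := cl_card n hn a s.1 (by omega)
        have e2 : (cl n (a, v.2).2 s.2).card ≤ 1 := cl_card n hn v.2 s.2 (by omega)
        have e3 : (cl n (v.1, b).1 s.1).card ≤ 1 := cl_card n hn v.1 s.1 (by omega)
        have e4 : (cl n (v.1, b).2 s.2).card ≤ 1 := cl_card n hn b s.2 (by omega)
        have hpos1 : 0 < (closer (torus n) (a, v.2) s).card :=
          Finset.card_pos.2 ⟨v, memv _ hA1 hD1⟩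
        have hpos2 : 0 < (closer (torus n) (v.1, b) s).card :=
          Finset.card_pos.2 ⟨v, memv _ hA2 hD2⟩
        have t1 := one_div_ge _ 2 hpos1 (by omega)
        have t2 := one_div_ge _ 2 hpos2 (by omega)
        push_cast at t1 t2
        linarith

end Pool.Agent.W184.ZB.FRAC
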