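import Mathlib
import Pool.Agent.W184.ZB.Defs

/-!
Project ZB, piece FRAC: on the torus the mass sent back to `v` from further away is at least one.
-/

set_option autoImplicit false

namespace Pool.Agent.W184.ZB.FRAC2

open SimpleGraph
open Pool.Agent.W184.ZB

theorem fsub {n : ℕ} (i j : Fin n) :
    (i - j).val = if j.val ≤ i.val then i.val - j.val else n + i.val - j.val := by
  rw [Fin.val_sub]
  have hi := i.isLt
  have hj := j.isLt
  split_ifs with h
  · have : n - j.val + i.val = (i.val - j.val) + n := by omega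
    rw [this, Nat.add_mod_right, Nat.mod_eq_of_lt (by omega)]
  · have : n - j.val + i.val = n + i.val - j.val := by omega
    rw [this, Nat.mod_eq_of_lt (by omega)]

theorem cadj {n : ℕ} (i j : Fin n) : (cycleGraph n).Adj i j ↔
    (i.val + 1 = j.val ∨ j.val + 1 = i.val ∨ (i.val + 1 = n ∧ j.val = 0 ∧ 1 < n) ∨
      (j.val + 1 = n ∧ i.val = 0 ∧ 1 < n)) := by
  rw [cycleGraph_adj', fsub, fsub]
  have hi := i.isLt
  have hj := j.isLt
  split_ifs <;> omega

/-- walk in increasing direction -/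
theorem cwalk {n : ℕ} (hn : 3 ≤ n) (m : ℕ) : ∀ i j : Fin n, (j - i).val = m →
    ∃ p : (cycleGraph n).Walk i j, p.length = m := by
  induction m with
  | zero =>
    intro i j h
    have : i = j := by
      apply Fin.ext
      rw [fsub] at h
      have hi := i.isLt
      have hj := j.isLt
      split_ifs at h <;> omega
    subst this
    exact ⟨Walk.nil, rfl⟩
  | succ m ih =>
    intro i j h
    have hi := i.isLt
    have hj := j.isLt
    by_cases hj0 : j.val = 0
    · let k : Fin n := ⟨n - 1, by omega⟩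
      have hk : k.val = n - 1 := rfl
      have h1 : (k - i).val = m := by
        rw [fsub] at h ⊢
        split_ifs at h ⊢ <;> omega
      obtain ⟨p, hp⟩ := ih i k h1
      have hadj : (cycleGraph n).Adj k j := by
        rw [cadj]; omega
      exact ⟨p.concat hadj, by rw [Walk.length_concat, hp]⟩
    · let k : Fin n := ⟨j.val - 1, by omega⟩
      have hk : k.val = j.val - 1 := rfl
      have h1 : (k - i).val = m := by
        rw [fsub] at h ⊢
        split_ifs at h ⊢ <;> omega
      obtain ⟨p, hp⟩ := ih i k h1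
      have hadj : (cycleGraph n).Adj k j := by
        rw [cadj]; omega
      exact ⟨p.concat hadj, by rw [Walk.length_concat, hp]⟩

theorem cwalk_le {n : ℕ} (i j : Fin n) (p : (cycleGraph n).Walk i j) :
    min (i - j).val (j - i).val ≤ p.length := by
  induction p with
  | nil =>
    rename_i u
    rw [fsub]
    simp
  | @cons u v w h p ih =>
    rw [Walk.length_cons]
    rw [cadj] at h
    rw [fsub, fsub] at ih ⊢
    have hi := u.isLt
    have hj := v.isLt
    have hw := w.isLt
    split_ifs at ih ⊢ <;> omega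

theorem cdist {n : ℕ} (hn : 3 ≤ n) (i j : Fin n) :
    (cycleGraph n).dist i j = min (i - j).val (j - i).val := by
  apply le_antisymm
  · apply le_min
    · obtain ⟨p, hp⟩ := cwalk hn (i - j).val j i rfl
      rw [dist_comm]
      exact (dist_le p).trans hp.le
    · obtain ⟨p, hp⟩ := cwalk hn (j - i).val i j rfl
      exact (dist_le p).trans hp.le
  · obtain ⟨p0, _⟩ := cwalk hn (j - i).val i j rfl
    obtain ⟨p, hp⟩ := p0.reachable.exists_walk_length_eq_dist
    rw [← hp]
    exact cwalk_le i j p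

/-- cyclic distance -/
def c {n : ℕ} (i j : Fin n) : ℕ := min (i - j).val (j - i).val

theorem tdist {n : ℕ} (hn : 3 ≤ n) (x y : Fin n × Fin n) :
    (torus n).dist x y = c x.1 y.1 + c x.2 y.2 := by
  have hconn : ∀ i j : Fin n, (cycleGraph n).Reachable i j := by
    intro i j
    obtain ⟨p, _⟩ := cwalk hn (j - i).val i j rfl
    exact p.reachable
  have h := edist_boxProd (G := cycleGraph n) (H := cycleGraph n) x y
  have hr : (torus n).Reachable x y := by
    rw [reachable_boxProd]
    exact ⟨hconn _ _, hconn _ _⟩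
  rw [← hr.coe_dist_eq_edist, ← (hconn x.1 y.1).coe_dist_eq_edist,
    ← (hconn x.2 y.2).coe_dist_eq_edist, cdist hn, cdist hn] at h
  exact_mod_cast h

theorem c_self {n : ℕ} (i : Fin n) : c i i = 0 := by
  unfold c
  rw [fsub]
  simp

theorem c_uniq {n : ℕ} (i a p q : Fin n) (h2 : 2 * c i a < n) (hp : (cycleGraph n).Adj i p)
    (hq : (cycleGraph n).Adj i q) (h3 : c p a + 1 = c i a) (h4 : c q a + 1 = c i a) : p = q := by
  apply Fin.ext
  rw [cadj] at hp hq
  unfold c at h2 h3 h4
  rw [fsub, fsub] at h2 h3 h4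
  rw [fsub, fsub] at h3 h4
  have h5 := i.isLt
  have h6 := a.isLt
  have h7 := p.isLt
  have h8 := q.isLt
  split_ifs at h2 h3 h4 <;> omega

theorem c_far {n : ℕ} (hn : 3 ≤ n) (i a : Fin n) (h2 : 2 * c i a + 2 < n) :
    ∃ p : Fin n, (cycleGraph n).Adj i p ∧ c p a = c i a + 1 := by
  have h5 := i.isLt
  have h6 := a.isLt
  unfold c at h2 ⊢
  by_cases hle : (i - a).val ≤ (a - i).val
  · by_cases hi : i.val + 1 = n
    · let p : Fin n := ⟨0, by omega⟩
      have hp : p.val = 0 := rfl
      refine ⟨p, ?_, ?_⟩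
      · rw [cadj]; omega
      · rw [fsub, fsub] at hle
        rw [fsub i a, fsub a i] at h2 ⊢
        rw [fsub, fsub]
        split_ifs at h2 hle ⊢ <;> omega
    · let p : Fin n := ⟨i.val + 1, by omega⟩
      have hp : p.val = i.val + 1 := rfl
      refine ⟨p, ?_, ?_⟩
      · rw [cadj]; omega
      · rw [fsub, fsub] at hle
        rw [fsub i a, fsub a i] at h2 ⊢
        rw [fsub, fsub]
        split_ifs at h2 hle ⊢ <;> omega
  · by_cases hi : i.val = 0
    · let p : Fin n := ⟨n - 1, by omega⟩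
      have hp : p.val = n - 1 := rfl
      refine ⟨p, ?_, ?_⟩
      · rw [cadj]; omega
      · rw [fsub, fsub] at hle
        rw [fsub i a, fsub a i] at h2 ⊢
        rw [fsub, fsub]
        split_ifs at h2 hle ⊢ <;> omega
    · let p : Fin n := ⟨i.val - 1, by omega⟩
      have hp : p.val = i.val - 1 := rfl
      refine ⟨p, ?_, ?_⟩
      · rw [cadj]; omega
      · rw [fsub, fsub] at hle
        rw [fsub i a, fsub a i] at h2 ⊢
        rw [fsub, fsub]
        split_ifs at h2 hle ⊢ <;> omega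

theorem mem_closer {n : ℕ} (hn : 3 ≤ n) (u s w : Fin n × Fin n) :
    w ∈ closer (torus n) u s ↔
      (((cycleGraph n).Adj u.1 w.1 ∧ u.2 = w.2 ∧ c w.1 s.1 + 1 = c u.1 s.1) ∨
        ((cycleGraph n).Adj u.2 w.2 ∧ u.1 = w.1 ∧ c w.2 s.2 + 1 = c u.2 s.2)) := by
  classical
  unfold closer
  simp only [Finset.mem_filter, Finset.mem_univ, true_and]
  rw [tdist hn, tdist hn, boxProd_adj]
  constructor
  · rintro ⟨⟨h1, h2⟩ | ⟨h1, h2⟩, h3⟩
    · left
      rw [h2] at h3
      exact ⟨h1, h2, by omega⟩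
    · right
      rw [h2] at h3
      exact ⟨h1, h2, by omega⟩
  · rintro (⟨h1, h2, h3⟩ | ⟨h1, h2, h3⟩)
    · refine ⟨Or.inl ⟨h1, h2⟩, ?_⟩
      rw [h2]; omega
    · refine ⟨Or.inr ⟨h1, h2⟩, ?_⟩
      rw [h2]; omega

theorem card_two {n : ℕ} (hn : 3 ≤ n) (u s : Fin n × Fin n) (h1 : 2 * c u.1 s.1 < n)
    (h2 : 2 * c u.2 s.2 < n) : (closer (torus n) u s).card ≤ 2 := by
  classical
  have hP : ∃ p0 : Fin n, ∀ p : Fin n, (cycleGraph n).Adj u.1 p → c p s.1 + 1 = c u.1 s.1 →
      p = p0 := by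
    by_cases h : ∃ p : Fin n, (cycleGraph n).Adj u.1 p ∧ c p s.1 + 1 = c u.1 s.1
    · obtain ⟨p0, hp0, hp0'⟩ := h
      exact ⟨p0, fun p hp hp' => c_uniq u.1 s.1 p p0 h1 hp hp0 hp' hp0'⟩
    · exact ⟨u.1, fun p hp hp' => absurd ⟨p, hp, hp'⟩ h⟩
  have hQ : ∃ p0 : Fin n, ∀ p : Fin n, (cycleGraph n).Adj u.2 p → c p s.2 + 1 = c u.2 s.2 →
      p = p0 := by
    by_cases h : ∃ p : Fin n, (cycleGraph n).Adj u.2 p ∧ c p s.2 + 1 = c u.2 s.2
    · obtain ⟨p0, hp0, hp0'⟩ := h
      exact ⟨p0, fun p hp hp' => c_uniq u.2 s.2 p p0 h2 hp hp0 hp' hp0'⟩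
    · exact ⟨u.2, fun p hp hp' => absurd ⟨p, hp, hp'⟩ h⟩
  obtain ⟨p0, hp0⟩ := hP
  obtain ⟨q0, hq0⟩ := hQ
  have hsub : closer (torus n) u s ⊆ {(p0, u.2), (u.1, q0)} := by
    intro w hw
    rw [mem_closer hn] at hw
    rw [Finset.mem_insert, Finset.mem_singleton]
    rcases hw with ⟨h3, h4, h5⟩ | ⟨h3, h4, h5⟩
    · left
      exact Prod.ext (hp0 _ h3 h5) h4.symm
    · right
      exact Prod.ext h4.symm (hq0 _ h3 h5)
  exact (Finset.card_le_card hsub).trans Finset.card_le_two

theorem card_one_left {n : ℕ} (hn : 3 ≤ n) (u s : Fin n × Fin n) (h1 : 2 * c u.1 s.1 < n)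
    (h2 : u.2 = s.2) : (closer (torus n) u s).card ≤ 1 := by
  rw [Finset.card_le_one]
  intro w hw w' hw'
  rw [mem_closer hn] at hw hw'
  have h0 := c_self s.2
  rw [h2] at hw hw'
  rcases hw with ⟨h3, h4, h5⟩ | ⟨h3, h4, h5⟩
  · rcases hw' with ⟨h3', h4', h5'⟩ | ⟨h3', h4', h5'⟩
    · exact Prod.ext (c_uniq u.1 s.1 _ _ h1 h3 h3' h5 h5') (h4.symm.trans h4')
    · omega
  · omega

theorem card_one_right {n : ℕ} (hn : 3 ≤ n) (u s : Fin n × Fin n) (h1 : 2 * c u.2 s.2 < n)
    (h2 : u.1 = s.1) : (closer (torus n) u s).card ≤ 1 := by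
  rw [Finset.card_le_one]
  intro w hw w' hw'
  rw [mem_closer hn] at hw hw'
  have h0 := c_self s.1
  rw [h2] at hw hw'
  rcases hw with ⟨h3, h4, h5⟩ | ⟨h3, h4, h5⟩
  · omega
  · rcases hw' with ⟨h3', h4', h5'⟩ | ⟨h3', h4', h5'⟩
    · omega
    · exact Prod.ext (h4.symm.trans h4') (c_uniq u.2 s.2 _ _ h1 h3 h3' h5 h5')

theorem pf : S_FRAC := by
  classical
  intro n s v hn hvs hd
  rw [tdist hn] at hd
  obtain ⟨p, hp, hpc⟩ := c_far hn v.1 s.1 (by omega)
  obtain ⟨q, hq, hqc⟩ := c_far hn v.2 s.2 (by omega)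
  have e1 : ((p, v.2) : Fin n × Fin n).1 = p := rfl
  -- the two candidates
  have hv1 : v ∈ closer (torus n) (p, v.2) s := by
    rw [mem_closer hn]
    left
    exact ⟨hp.symm, rfl, hpc.symm⟩
  have hv2 : v ∈ closer (torus n) (v.1, q) s := by
    rw [mem_closer hn]
    right
    exact ⟨hq.symm, rfl, hqc.symm⟩
  have hd1 : (torus n).dist (p, v.2) s = (torus n).dist v s + 1 := by
    rw [tdist hn, tdist hn]
    simp only []
    omega
  have hd2 : (torus n).dist (v.1, q) s = (torus n).dist v s + 1 := by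
    rw [tdist hn, tdist hn]
    simp only []
    omega
  by_cases h1 : v.1 = s.1
  · refine ⟨{(v.1, q)}, ?_, ?_⟩
    · intro u hu
      rw [Finset.mem_singleton] at hu
      subst hu
      exact ⟨hv2, hd2⟩
    · rw [Finset.sum_singleton]
      have h3 : (closer (torus n) (v.1, q) s).card ≤ 1 :=
        card_one_right hn _ _ (by simp only []; omega) h1
      have h4 : 0 < (closer (torus n) (v.1, q) s).card := Finset.card_pos.2 ⟨v, hv2⟩
      have h5 : (closer (torus n) (v.1, q) s).card = 1 := by omega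
      rw [h5]; norm_num
  · by_cases h2 : v.2 = s.2
    · refine ⟨{(p, v.2)}, ?_, ?_⟩
      · intro u hu
        rw [Finset.mem_singleton] at hu
        subst hu
        exact ⟨hv1, hd1⟩
      · rw [Finset.sum_singleton]
        have h3 : (closer (torus n) (p, v.2) s).card ≤ 1 :=
          card_one_left hn _ _ (by simp only []; omega) h2
        have h4 : 0 < (closer (torus n) (p, v.2) s).card := Finset.card_pos.2 ⟨v, hv1⟩
        have h5 : (closer (torus n) (p, v.2) s).card = 1 := by omega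
        rw [h5]; norm_num
    · have hne : ((p, v.2) : Fin n × Fin n) ≠ (v.1, q) := by
        intro h
        have := congrArg Prod.fst h
        simp only [] at this
        rw [this] at hp
        exact hp.ne rfl
      refine ⟨{(p, v.2), (v.1, q)}, ?_, ?_⟩
      · intro u hu
        rw [Finset.mem_insert, Finset.mem_singleton] at hu
        rcases hu with rfl | rfl
        · exact ⟨hv1, hd1⟩
        · exact ⟨hv2, hd2⟩
      · rw [Finset.sum_pair hne]
        have h3 : (closer (torus n) (p, v.2) s).card ≤ 2 :=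
          card_two hn _ _ (by simp only []; omega) (by simp only []; omega)
        have h4 : 0 < (closer (torus n) (p, v.2) s).card := Finset.card_pos.2 ⟨v, hv1⟩
        have h5 : (closer (torus n) (v.1, q) s).card ≤ 2 :=
          card_two hn _ _ (by simp only []; omega) (by simp only []; omega)
        have h6 : 0 < (closer (torus n) (v.1, q) s).card := Finset.card_pos.2 ⟨v, hv2⟩
        have key : ∀ m : ℕ, 0 < m → m ≤ 2 → (1 / 2 : ℝ) ≤ 1 / (m : ℝ) := by
          intro m hm hm2
          have hm' : (0 : ℝ) < m := by exact_mod_cast hm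
          have hm2' : (m : ℝ) ≤ 2 := by exact_mod_cast hm2
          exact one_div_le_one_div_of_le hm' hm2'
        have := key _ h4 h3
        have := key _ h6 h5
        linarith

end Pool.Agent.W184.ZB.FRAC2
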