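import Pool.Agent.W184.ZB.Defs

/-! The mass that is caught. -/

set_option autoImplicit false

namespace Pool.Agent.W184.ZB.MASS

open SimpleGraph Finset

open scoped Classical in
theorem step_nonneg {V : Type} [Fintype V] (G : SimpleGraph V) (μ : V → ℝ)
    (hμ : ∀ v, 0 ≤ μ v) (s v : V) : 0 ≤ step G μ s v := by
  unfold step
  split_ifs with h
  · exact le_refl 0
  · refine Finset.sum_nonneg fun u _ => ?_
    split_ifs
    · exact div_nonneg (hμ u) (Nat.cast_nonneg _)
    · exact le_refl 0

theorem mem_closer {V : Type} [Fintype V] (G : SimpleGraph V) (z s v : V) :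
    v ∈ closer G z s ↔ G.Adj z v ∧ G.dist v s + 1 = G.dist z s := by
  unfold closer
  simp

theorem mem_reach {V : Type} [Fintype V] (G : SimpleGraph V) (s v : V) :
    v ∈ reach G s ↔ v = s ∨ G.Adj s v := by
  unfold reach
  simp

open scoped Classical in
theorem step_sum {V : Type} [Fintype V] (G : SimpleGraph V) (hG : G.Connected) (μ : V → ℝ)
    (hμ : ∀ v, 0 ≤ μ v) (s : V) :
    ∑ v, step G μ s v ≤ ∑ u, (if u = s ∨ G.Adj s u then 0 else μ u) := by
  have h1 : ∀ v, step G μ s v ≤ ∑ u, (if u ≠ s ∧ v ∈ closer G u s ∧ v ≠ s then
      μ u / ((closer G u s).card : ℝ) else 0) := by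
    intro v
    unfold step
    split_ifs with h
    · refine Finset.sum_nonneg fun u _ => ?_
      split_ifs
      · exact div_nonneg (hμ u) (Nat.cast_nonneg _)
      · exact le_refl 0
    · apply le_of_eq
      refine Finset.sum_congr rfl fun u _ => ?_
      simp [h]
  refine (Finset.sum_le_sum fun v _ => h1 v).trans ?_
  rw [Finset.sum_comm]
  refine Finset.sum_le_sum fun u _ => ?_
  by_cases hu : u = s ∨ G.Adj s u
  · rw [if_pos hu]
    apply le_of_eq
    refine Finset.sum_eq_zero fun v _ => if_neg ?_
    rintro ⟨h1, h2, h3⟩
    rcases hu with hu | hu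
    · exact h1 hu
    · rw [mem_closer] at h2
      have h4 : G.dist u s = 1 := dist_eq_one_iff_adj.mpr hu.symm
      have h5 : G.dist v s = 0 := by omega
      exact h3 ((hG.dist_eq_zero_iff).mp h5)
  · rw [if_neg hu]
    calc ∑ v, (if u ≠ s ∧ v ∈ closer G u s ∧ v ≠ s then
          μ u / ((closer G u s).card : ℝ) else 0)
        ≤ ∑ v, (if v ∈ closer G u s then μ u / ((closer G u s).card : ℝ) else 0) := by
          refine Finset.sum_le_sum fun v _ => ?_
          split_ifs with a b b
          · exact le_refl _
          · exact absurd a.2.1 b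
          · exact div_nonneg (hμ u) (Nat.cast_nonneg _)
          · exact le_refl _
      _ = ((closer G u s).card : ℝ) * (μ u / ((closer G u s).card : ℝ)) := by
          rw [Finset.sum_ite_mem, Finset.univ_inter, Finset.sum_const, nsmul_eq_mul]
      _ ≤ μ u := by
          rcases Nat.eq_zero_or_pos (closer G u s).card with h | h
          · rw [h]; simp [hμ u]
          · have : ((closer G u s).card : ℝ) ≠ 0 := by positivity
            apply le_of_eq
            field_simp

theorem conn (n : ℕ) (hn : 3 ≤ n) : (torus n).Connected := by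
  obtain ⟨m, rfl⟩ : ∃ m, n = m + 3 := ⟨n - 3, by omega⟩
  have h : (cycleGraph (m + 3)).Connected := cycleGraph_connected (n := m + 2)
  exact h.boxProd h

open scoped Classical in
theorem nbr (n : ℕ) (hn : 3 ≤ n) (s : Fin n × Fin n) :
    4 ≤ (Finset.univ.filter (fun u => (torus n).Adj s u)).card := by
  obtain ⟨m, rfl⟩ : ∃ m, n = m + 3 := ⟨n - 3, by omega⟩
  have h1 : (torus (m + 3)).degree s = 4 := by
    rw [degree_boxProd, cycleGraph_degree_three_le, cycleGraph_degree_three_le]
  rw [← h1, ← card_neighborFinset_eq_degree]
  apply le_of_eq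
  congr 1
  ext u
  simp

open scoped Classical in
theorem claim (hF : S_FRAC) (n : ℕ) (hn : 3 ≤ n) : ∀ (T : ℕ) (μ : Fin n × Fin n → ℝ)
    (s : Fin n × Fin n) (ρ : ℕ) (M : ℝ), (∀ v, 0 ≤ μ v) →
    (T = 0 ∨ (2 * ρ < n ∧ 2 * T ≤ ρ + 1 ∧ ∃ h, (h = s ∨ (torus n).Adj s h) ∧
      ∀ v, (torus n).dist v s ≤ ρ → v ≠ s → v ≠ h → 1 ≤ μ v)) →
    ∑ v, (if v = s then 0 else μ v) ≤ M → Surv (torus n) T μ s (M - 3 * T) := by
  intro T
  induction T with
  | zero =>
    intro μ s ρ M hμ _ hM
    unfold Surv
    have e : M - 3 * ((0 : ℕ) : ℝ) = M := by simp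
    rw [e]
    convert hM
  | succ T ih =>
    intro μ s ρ M hμ hI hM
    have hconn := conn n hn
    rcases hI with hI | ⟨hρ, hT, h, hh, hone⟩
    · omega
    have hdh : (torus n).dist h s ≤ 1 := by
      rcases hh with hh | hh
      · rw [hh, SimpleGraph.dist_self]; omega
      · rw [SimpleGraph.dist_comm, dist_eq_one_iff_adj.mpr hh]
    have key : ∀ v, v ≠ s → (torus n).dist v s ≤ ρ - 1 → 1 ≤ step (torus n) μ s v := by
      intro v hv hd
      obtain ⟨F, hF1, hF2⟩ := hF n s v hn hv (by omega)
      have hpos : (torus n).dist v s ≠ 0 := by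
        intro h0
        exact hv ((hconn.dist_eq_zero_iff).mp h0)
      have hfin : (1 : ℝ) ≤ ∑ u, (if u ≠ s ∧ v ∈ closer (torus n) u s then
              μ u / ((closer (torus n) u s).card : ℝ) else 0) := by
       calc (1 : ℝ) ≤ ∑ u ∈ F, 1 / ((closer (torus n) u s).card : ℝ) := hF2
        _ ≤ ∑ u ∈ F, (if u ≠ s ∧ v ∈ closer (torus n) u s then
              μ u / ((closer (torus n) u s).card : ℝ) else 0) := by
            refine Finset.sum_le_sum fun u hu => ?_
            obtain ⟨hc, hd2⟩ := hF1 u hu
            have hus : u ≠ s := by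
              rintro rfl
              rw [SimpleGraph.dist_self] at hd2
              omega
            have huh : u ≠ h := by
              rintro rfl
              omega
            rw [if_pos ⟨hus, hc⟩]
            exact div_le_div_of_nonneg_right (hone u (by omega) hus huh) (Nat.cast_nonneg _)
        _ ≤ ∑ u, (if u ≠ s ∧ v ∈ closer (torus n) u s then
              μ u / ((closer (torus n) u s).card : ℝ) else 0) := by
            refine Finset.sum_le_sum_of_subset_of_nonneg (Finset.subset_univ _) fun u _ _ => ?_
            split_ifs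
            · exact div_nonneg (hμ u) (Nat.cast_nonneg _)
            · exact le_refl 0
      unfold step
      rw [if_neg hv]
      convert hfin
    have hμ' := step_nonneg (torus n) μ hμ s
    have hsum : ∑ v, step (torus n) μ s v ≤ M - 3 := by
      have hst : ∑ v, step (torus n) μ s v ≤
          ∑ u, (if u = s ∨ (torus n).Adj s u then 0 else μ u) := by
        convert step_sum (torus n) hconn μ hμ s
      refine hst.trans ?_
      have e : ∑ u, (if u = s then 0 else μ u) =
          ∑ u, (if u = s ∨ (torus n).Adj s u then 0 else μ u) +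
          ∑ u, (if (torus n).Adj s u then μ u else 0) := by
        rw [← Finset.sum_add_distrib]
        refine Finset.sum_congr rfl fun u _ => ?_
        by_cases h1 : u = s
        · have h2 : ¬ (torus n).Adj s u := by
            rw [h1]
            exact SimpleGraph.irrefl _
          rw [if_pos h1, if_pos (Or.inl h1), if_neg h2]
          simp
        · by_cases h2 : (torus n).Adj s u
          · rw [if_neg h1, if_pos (Or.inr h2), if_pos h2]
            simp
          · rw [if_neg h1, if_neg (by rintro (h3 | h3); exacts [h1 h3, h2 h3]), if_neg h2]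
            simp
      have e3 : (3 : ℝ) ≤ ∑ u, (if (torus n).Adj s u then μ u else 0) := by
        rw [← Finset.sum_filter]
        have hc := nbr n hn s
        have hc2 : 3 ≤ ((Finset.univ.filter (fun u => (torus n).Adj s u)).erase h).card := by
          have := Finset.pred_card_le_card_erase
            (s := Finset.univ.filter (fun u => (torus n).Adj s u)) (a := h)
          omega
        calc (3 : ℝ) ≤ (((Finset.univ.filter (fun u => (torus n).Adj s u)).erase h).card : ℝ) := by
              exact_mod_cast hc2
          _ = ∑ _u ∈ (Finset.univ.filter (fun u => (torus n).Adj s u)).erase h, (1 : ℝ) := by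
              rw [Finset.sum_const, nsmul_eq_mul, mul_one]
          _ ≤ ∑ u ∈ (Finset.univ.filter (fun u => (torus n).Adj s u)).erase h, μ u := by
              refine Finset.sum_le_sum fun u hu => ?_
              rw [Finset.mem_erase, Finset.mem_filter] at hu
              have hd : (torus n).dist u s = 1 := dist_eq_one_iff_adj.mpr hu.2.2.symm
              exact hone u (by omega) hu.2.2.ne' hu.1
          _ ≤ ∑ u ∈ Finset.univ.filter (fun u => (torus n).Adj s u), μ u :=
              Finset.sum_le_sum_of_subset_of_nonneg (Finset.erase_subset _ _)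
                fun u _ _ => hμ u
      rw [e] at hM
      linarith
    show ∀ s' ∈ reach (torus n) s, Surv (torus n) T (step (torus n) μ s) s' _
    intro s' hs'
    rw [mem_reach] at hs'
    have e : M - 3 * ((T + 1 : ℕ) : ℝ) = (M - 3) - 3 * (T : ℝ) := by
      push_cast; ring
    rw [e]
    refine ih (step (torus n) μ s) s' (ρ - 2) (M - 3) hμ' ?_ ?_
    · rcases Nat.eq_zero_or_pos T with h0 | h0
      · left; exact h0
      · right
        refine ⟨by omega, by omega, s, ?_, ?_⟩
        · rcases hs' with h1 | h1
          · left; exact h1.symm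
          · right; exact h1.symm
        · intro v hd hvs' hvs
          apply key v hvs
          have htri : (torus n).dist v s ≤ (torus n).dist v s' + (torus n).dist s' s :=
            hconn.dist_triangle
          have h1 : (torus n).dist s' s ≤ 1 := by
            rcases hs' with h1 | h1
            · rw [h1, SimpleGraph.dist_self]; omega
            · rw [SimpleGraph.dist_comm, dist_eq_one_iff_adj.mpr h1]
          omega
    · refine le_trans (Finset.sum_le_sum fun v _ => ?_) hsum
      split_ifs
      · exact hμ' v
      · exact le_refl _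

theorem pf : S_FRAC → S_MASS := by
  classical
  intro hF n T hn hT s
  refine claim hF n hn T (fun _ => 1) s (2 * T + 1) ((n : ℝ) ^ 2 - 1) (fun _ => zero_le_one) ?_ ?_
  · rcases hT with hT | hT
    · left; exact hT
    · right
      exact ⟨by omega, by omega, s, Or.inl rfl, fun _ _ _ _ => le_refl _⟩
  · have h1 : ∀ v : Fin n × Fin n, (if v = s then (0 : ℝ) else 1) = 1 - (if v = s then 1 else 0) := by
      intro v
      split_ifs <;> simp
    simp only [h1]
    rw [Finset.sum_sub_distrib, Finset.sum_const, Finset.card_univ, Fintype.card_prod,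
      Fintype.card_fin]
    simp [sq]

end Pool.Agent.W184.ZB.MASS
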