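import Pool.Agent.W184.ZB.Defs

set_option autoImplicit false

namespace Pool.Agent.W184.ZB.UNION

open Pool.Agent.W184.ZB SimpleGraph Finset

open scoped Classical

theorem self_mem {V : Type} [Fintype V] (G : SimpleGraph V) (s : V) : s ∈ reach G s := by
  unfold reach
  simp

theorem W_nonneg {V : Type} [Fintype V] (G : SimpleGraph V) (k : ℕ) :
    ∀ (T : ℕ) (z : Fin k → V) (s : V), 0 ≤ W G k T z s
  | 0, z, s => by
      rw [W]
      split_ifs <;> norm_num
  | T + 1, z, s => by
      rw [W]
      split_ifs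
      · exact le_rfl
      · refine div_nonneg (Finset.sum_nonneg fun z' _ => ?_)
          (Finset.prod_nonneg fun i _ => Nat.cast_nonneg _)
        split_ifs
        · exact le_rfl
        · exact Real.iSup_nonneg fun s' => W_nonneg G k T z' s'.1

/-- transition weight -/
noncomputable def ff {V : Type} [Fintype V] (G : SimpleGraph V) (μ : V → ℝ) (s u v : V) : ℝ :=
  if u ≠ s ∧ v ∈ closer G u s then μ u / ((closer G u s).card : ℝ) else 0

/-- the value after the move -/
noncomputable def Sv {V : Type} [Fintype V] (G : SimpleGraph V) (k T : ℕ) (s : V)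
    (z' : Fin k → V) : ℝ :=
  if ∃ i, z' i = s then 0 else ⨆ s' : reach G s, W G k T z' s'.1

theorem one_step {V : Type} [Fintype V] (G : SimpleGraph V) (k T : ℕ) (μ : V → ℝ) (s : V)
    (z : Fin k → V) :
    (∏ i, μ (z i)) * W G k (T + 1) z s =
      ∑ z' : Fin k → V, (∏ i, ff G μ s (z i) (z' i)) * Sv G k T s z' := by
  rw [W]
  by_cases h : ∃ i, z i = s
  · rw [if_pos h, mul_zero]
    symm
    refine Finset.sum_eq_zero fun z' _ => ?_
    obtain ⟨i, hi⟩ := h
    have : ∏ i, ff G μ s (z i) (z' i) = 0 := by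
      refine Finset.prod_eq_zero (Finset.mem_univ i) ?_
      unfold ff
      rw [if_neg]
      exact fun hh => hh.1 hi
    rw [this, zero_mul]
  · rw [if_neg h]
    push Not at h
    have h1 : ∑ z' : Fin k → V, (∏ i, ff G μ s (z i) (z' i)) * Sv G k T s z' =
        ∑ z' ∈ Fintype.piFinset (fun i => closer G (z i) s),
          (∏ i, ff G μ s (z i) (z' i)) * Sv G k T s z' := by
      symm
      refine Finset.sum_subset (Finset.subset_univ _) fun z' _ hz' => ?_
      rw [Fintype.mem_piFinset] at hz'
      push Not at hz'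
      obtain ⟨i, hi⟩ := hz'
      have : ∏ i, ff G μ s (z i) (z' i) = 0 := by
        refine Finset.prod_eq_zero (Finset.mem_univ i) ?_
        unfold ff
        rw [if_neg]
        exact fun hh => hi hh.2
      rw [this, zero_mul]
    rw [h1, mul_div_assoc', Finset.mul_sum, Finset.sum_div]
    refine Finset.sum_congr rfl fun z' hz' => ?_
    rw [Fintype.mem_piFinset] at hz'
    have h2 : ∏ i, ff G μ s (z i) (z' i) =
        (∏ i, μ (z i)) / ∏ i, ((closer G (z i) s).card : ℝ) := by
      rw [← Finset.prod_div_distrib]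
      refine Finset.prod_congr rfl fun i _ => ?_
      unfold ff
      rw [if_pos ⟨h i, hz' i⟩]
    rw [h2]
    unfold Sv
    ring

theorem step_nonneg {V : Type} [Fintype V] (G : SimpleGraph V) (μ : V → ℝ) (s : V)
    (hμ : ∀ v, 0 ≤ μ v) (v : V) : 0 ≤ step G μ s v := by
  unfold step
  split_ifs
  · exact le_rfl
  · refine Finset.sum_nonneg fun u _ => ?_
    split_ifs
    · exact div_nonneg (hμ u) (Nat.cast_nonneg _)
    · exact le_rfl

theorem Sv_le {V : Type} [Fintype V] (G : SimpleGraph V) (k T : ℕ) (s : V) (z' : Fin k → V) :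
    Sv G k T s z' ≤ ∑ s' ∈ reach G s, W G k T z' s' := by
  unfold Sv
  split_ifs
  · exact Finset.sum_nonneg fun s' _ => W_nonneg G k T z' s'
  · haveI : Nonempty (reach G s) := ⟨⟨s, self_mem G s⟩⟩
    exact ciSup_le fun s' => Finset.single_le_sum (f := fun s' => W G k T z' s')
      (fun t _ => W_nonneg G k T z' t) s'.2

theorem claim {V : Type} [Fintype V] (G : SimpleGraph V) (k Δ : ℕ)
    (hΔ : ∀ s : V, (reach G s).card ≤ Δ) :
    ∀ (T : ℕ) (μ : V → ℝ) (s : V) (B : ℝ), 0 ≤ B → (∀ v, 0 ≤ μ v) → Surv G T μ s B →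
      ∑ z : Fin k → V, (∏ i, μ (z i)) * W G k T z s ≤ (Δ : ℝ) ^ T * B ^ k
  | 0, μ, s, B, hB, hμ, h => by
      rw [Surv] at h
      have h1 : ∀ z : Fin k → V, (∏ i, μ (z i)) * W G k 0 z s =
          ∏ i, (if z i = s then 0 else μ (z i)) := by
        intro z
        rw [W]
        by_cases hz : ∃ i, z i = s
        · rw [if_pos hz, mul_zero]
          obtain ⟨i, hi⟩ := hz
          symm
          exact Finset.prod_eq_zero (Finset.mem_univ i) (if_pos hi)
        · rw [if_neg hz, mul_one]
          push Not at hz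
          exact Finset.prod_congr rfl fun i _ => (if_neg (hz i)).symm
      rw [Finset.sum_congr rfl fun z _ => h1 z,
        ← Fintype.sum_pow (fun v : V => if v = s then 0 else μ v) k, pow_zero, one_mul]
      refine pow_le_pow_left₀ (Finset.sum_nonneg fun v _ => ?_) h k
      split_ifs
      · exact le_rfl
      · exact hμ v
  | T + 1, μ, s, B, hB, hμ, h => by
      rw [Surv] at h
      have hst := step_nonneg G μ s hμ
      have h1 : ∑ z : Fin k → V, (∏ i, μ (z i)) * W G k (T + 1) z s =
          ∑ z' : Fin k → V, (∏ i, step G μ s (z' i)) * Sv G k T s z' := by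
        rw [Finset.sum_congr rfl fun z _ => one_step G k T μ s z, Finset.sum_comm]
        refine Finset.sum_congr rfl fun z' _ => ?_
        rw [← Finset.sum_mul]
        by_cases hz : ∃ i, z' i = s
        · have : Sv G k T s z' = 0 := by unfold Sv; rw [if_pos hz]
          rw [this, mul_zero, mul_zero]
        · push Not at hz
          congr 1
          have h2 : ∀ i, step G μ s (z' i) = ∑ u : V, ff G μ s u (z' i) := by
            intro i
            unfold step ff
            rw [if_neg (hz i)]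
          rw [Finset.prod_congr rfl fun i _ => h2 i, Finset.prod_univ_sum,
            Fintype.piFinset_univ]
      rw [h1]
      have h3 : ∑ z' : Fin k → V, (∏ i, step G μ s (z' i)) * Sv G k T s z' ≤
          ∑ z' : Fin k → V, ∑ s' ∈ reach G s, (∏ i, step G μ s (z' i)) * W G k T z' s' := by
        refine Finset.sum_le_sum fun z' _ => ?_
        rw [← Finset.mul_sum]
        exact mul_le_mul_of_nonneg_left (Sv_le G k T s z') (Finset.prod_nonneg fun i _ => hst _)
      refine h3.trans ?_
      rw [Finset.sum_comm]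
      have h4 : ∑ s' ∈ reach G s, ∑ z' : Fin k → V, (∏ i, step G μ s (z' i)) * W G k T z' s' ≤
          ∑ s' ∈ reach G s, (Δ : ℝ) ^ T * B ^ k :=
        Finset.sum_le_sum fun s' hs' => claim G k Δ hΔ T (step G μ s) s' B hB hst (h s' hs')
      refine h4.trans ?_
      rw [Finset.sum_const, nsmul_eq_mul, pow_succ]
      have h5 : ((reach G s).card : ℝ) ≤ Δ := by exact_mod_cast hΔ s
      have h6 : 0 ≤ (Δ : ℝ) ^ T * B ^ k := by positivity
      calc ((reach G s).card : ℝ) * ((Δ : ℝ) ^ T * B ^ k) ≤ Δ * ((Δ : ℝ) ^ T * B ^ k) :=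
            mul_le_mul_of_nonneg_right h5 h6
        _ = (Δ : ℝ) ^ T * Δ * B ^ k := by ring

theorem pf : S_UNION := by
  intro V _ _ G k T Δ B hB hΔ hS
  unfold surv
  have hN : (0 : ℝ) < Fintype.card V := by exact_mod_cast Fintype.card_pos
  have h1 : ∑ z : Fin k → V, ⨆ s : V, W G k T z s ≤
      ∑ z : Fin k → V, ∑ s : V, W G k T z s := by
    refine Finset.sum_le_sum fun z _ => ciSup_le fun s => ?_
    exact Finset.single_le_sum (f := fun s => W G k T z s)
      (fun t _ => W_nonneg G k T z t) (Finset.mem_univ s)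
  have h2 : ∑ z : Fin k → V, ∑ s : V, W G k T z s ≤ (Fintype.card V : ℝ) * ((Δ : ℝ) ^ T * B ^ k) := by
    rw [Finset.sum_comm]
    have h3 : ∀ s : V, ∑ z : Fin k → V, W G k T z s ≤ (Δ : ℝ) ^ T * B ^ k := by
      intro s
      have := claim G k Δ hΔ T (fun _ => 1) s B hB (fun _ => zero_le_one) (hS s)
      simpa using this
    calc ∑ s : V, ∑ z : Fin k → V, W G k T z s ≤ ∑ s : V, (Δ : ℝ) ^ T * B ^ k :=
          Finset.sum_le_sum fun s _ => h3 s
      _ = (Fintype.card V : ℝ) * ((Δ : ℝ) ^ T * B ^ k) := by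
          rw [Finset.sum_const, nsmul_eq_mul, Finset.card_univ]
  rw [div_pow]
  rw [div_le_iff₀ (by positivity)]
  refine (h1.trans h2).trans (le_of_eq ?_)
  field_simp

end Pool.Agent.W184.ZB.UNION
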