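import Mathlib
import Pool.Agent.W184.ZB.Defs

set_option autoImplicit false

/-! The general union bound for zombies. -/

namespace Pool.Agent.W184.ZB.UNION2

open SimpleGraph Pool.Agent.W184.ZB
open scoped Classical

variable {V : Type} [Fintype V]

theorem W_nonneg (G : SimpleGraph V) (k T : ℕ) : ∀ (z : Fin k → V) (s : V), 0 ≤ W G k T z s := by
  induction T with
  | zero =>
    intro z s
    unfold W
    split_ifs <;> norm_num
  | succ T ih =>
    intro z s
    unfold W
    split_ifs with h
    · exact le_rfl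
    · refine div_nonneg (Finset.sum_nonneg fun z' _ => ?_) (Finset.prod_nonneg fun i _ => by positivity)
      split_ifs
      · exact le_rfl
      · exact Real.iSup_nonneg fun s' => ih z' s'.1

theorem step_nonneg (G : SimpleGraph V) (μ : V → ℝ) (hμ : ∀ v, 0 ≤ μ v) (s v : V) : 0 ≤ step G μ s v := by
  unfold step
  split_ifs
  · exact le_rfl
  · refine Finset.sum_nonneg fun u _ => ?_
    split_ifs
    · exact div_nonneg (hμ u) (by positivity)
    · exact le_rfl

/-- the value after the zombies' move -/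
noncomputable def AA (G : SimpleGraph V) (k T : ℕ) (s : V) (z' : Fin k → V) : ℝ :=
  if ∃ i, z' i = s then 0 else ⨆ s' : reach G s, W G k T z' s'.1

noncomputable def phi (G : SimpleGraph V) (μ : V → ℝ) (s u v : V) : ℝ :=
  if u ≠ s ∧ v ∈ closer G u s then μ u / ((closer G u s).card : ℝ) else 0

theorem point (G : SimpleGraph V) (μ : V → ℝ) (k T : ℕ) (z : Fin k → V) (s : V) :
    (∏ i, μ (z i)) * W G k (T + 1) z s = ∑ z' : Fin k → V, AA G k T s z' * ∏ i, phi G μ s (z i) (z' i) := by
  by_cases h : ∃ i, z i = s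
  · have h1 : W G k (T + 1) z s = 0 := by
      unfold W
      rw [if_pos h]
    rw [h1, mul_zero]
    symm
    refine Finset.sum_eq_zero fun z' _ => ?_
    obtain ⟨i, hi⟩ := h
    have h2 : ∏ i, phi G μ s (z i) (z' i) = 0 := by
      refine Finset.prod_eq_zero (Finset.mem_univ i) ?_
      unfold phi
      rw [if_neg]
      rintro ⟨h3, -⟩
      exact h3 hi
    rw [h2, mul_zero]
  · have h1 : W G k (T + 1) z s = (∑ z' ∈ Fintype.piFinset (fun i => closer G (z i) s), AA G k T s z') /
        ∏ i, ((closer G (z i) s).card : ℝ) := by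
      rw [W, if_neg h]
      rfl
    rw [h1, ← mul_div_assoc, Finset.mul_sum, Finset.sum_div]
    symm
    rw [← Finset.sum_subset (Finset.subset_univ (Fintype.piFinset (fun i => closer G (z i) s)))]
    · refine Finset.sum_congr rfl fun z' hz' => ?_
      rw [Fintype.mem_piFinset] at hz'
      have h2 : ∏ i, phi G μ s (z i) (z' i) = (∏ i, μ (z i)) / ∏ i, ((closer G (z i) s).card : ℝ) := by
        rw [← Finset.prod_div_distrib]
        refine Finset.prod_congr rfl fun i _ => ?_
        unfold phi
        rw [if_pos ⟨fun h3 => h ⟨i, h3⟩, hz' i⟩]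
      rw [h2]
      ring
    · intro z' _ hz'
      rw [Fintype.mem_piFinset] at hz'
      push Not at hz'
      obtain ⟨i, hi⟩ := hz'
      have h2 : ∏ i, phi G μ s (z i) (z' i) = 0 := by
        refine Finset.prod_eq_zero (Finset.mem_univ i) ?_
        unfold phi
        rw [if_neg]
        rintro ⟨-, h3⟩
        exact hi h3
      rw [h2, mul_zero]

theorem claim (G : SimpleGraph V) (k Δ : ℕ) (hΔ : ∀ s : V, (reach G s).card ≤ Δ) (B : ℝ) (hB : 0 ≤ B) (T : ℕ) :
    ∀ (μ : V → ℝ) (s : V), (∀ v, 0 ≤ μ v) → Surv G T μ s B →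
      ∑ z : Fin k → V, (∏ i, μ (z i)) * W G k T z s ≤ (Δ : ℝ) ^ T * B ^ k := by
  induction T with
  | zero =>
    intro μ s hμ hS
    have h1 : ∀ z : Fin k → V, (∏ i, μ (z i)) * W G k 0 z s = ∏ i, (if z i = s then 0 else μ (z i)) := by
      intro z
      by_cases h : ∃ i, z i = s
      · rw [W, if_pos h, mul_zero]
        obtain ⟨i, hi⟩ := h
        symm
        exact Finset.prod_eq_zero (Finset.mem_univ i) (if_pos hi)
      · rw [W, if_neg h, mul_one]
        refine Finset.prod_congr rfl fun i _ => ?_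
        rw [if_neg fun h3 => h ⟨i, h3⟩]
    rw [Finset.sum_congr rfl fun z _ => h1 z]
    have h2 := Fintype.sum_pow (fun v : V => if v = s then 0 else μ v) k
    rw [← h2, pow_zero, one_mul]
    refine pow_le_pow_left₀ (Finset.sum_nonneg fun v _ => ?_) ?_ k
    · split_ifs
      · exact le_rfl
      · exact hμ v
    · exact hS
  | succ T ih =>
    intro μ s hμ hS
    have hst := step_nonneg G μ hμ s
    have e1 : ∑ z : Fin k → V, (∏ i, μ (z i)) * W G k (T + 1) z s =
        ∑ z' : Fin k → V, AA G k T s z' * ∏ i, ∑ u, phi G μ s u (z' i) := by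
      rw [Finset.sum_congr rfl fun z _ => point G μ k T z s, Finset.sum_comm]
      refine Finset.sum_congr rfl fun z' _ => ?_
      rw [Finset.prod_univ_sum, Fintype.piFinset_univ, Finset.mul_sum]
    rw [e1]
    have e2 : ∀ z' : Fin k → V, AA G k T s z' * ∏ i, ∑ u, phi G μ s u (z' i) ≤
        ∑ s' ∈ reach G s, (∏ i, step G μ s (z' i)) * W G k T z' s' := by
      intro z'
      rw [← Finset.mul_sum]
      have hp : 0 ≤ ∏ i, step G μ s (z' i) := Finset.prod_nonneg fun i _ => hst (z' i)
      have hq : 0 ≤ ∑ s' ∈ reach G s, W G k T z' s' := Finset.sum_nonneg fun s' _ => W_nonneg G k T z' s'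
      by_cases h : ∃ i, z' i = s
      · unfold AA
        rw [if_pos h, zero_mul]
        exact mul_nonneg hp hq
      · have h2 : ∏ i, ∑ u, phi G μ s u (z' i) = ∏ i, step G μ s (z' i) := by
          refine Finset.prod_congr rfl fun i _ => ?_
          unfold step phi
          rw [if_neg fun h3 => h ⟨i, h3⟩]
        rw [h2, mul_comm]
        refine mul_le_mul_of_nonneg_left ?_ hp
        unfold AA
        rw [if_neg h]
        refine Real.iSup_le (fun s' => ?_) hq
        exact Finset.single_le_sum (f := fun s' => W G k T z' s') (fun s'' _ => W_nonneg G k T z' s'') s'.2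
    refine (Finset.sum_le_sum fun z' _ => e2 z').trans ?_
    rw [Finset.sum_comm]
    have e3 : ∀ s' ∈ reach G s, ∑ z' : Fin k → V, (∏ i, step G μ s (z' i)) * W G k T z' s' ≤
        (Δ : ℝ) ^ T * B ^ k := fun s' hs' => ih _ s' hst (hS s' hs')
    refine (Finset.sum_le_card_nsmul _ _ _ e3).trans ?_
    rw [nsmul_eq_mul, pow_succ]
    have h5 : ((reach G s).card : ℝ) ≤ Δ := by exact_mod_cast hΔ s
    have h6 : 0 ≤ (Δ : ℝ) ^ T * B ^ k := by positivity
    calc ((reach G s).card : ℝ) * ((Δ : ℝ) ^ T * B ^ k) ≤ (Δ : ℝ) * ((Δ : ℝ) ^ T * B ^ k) :=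
          mul_le_mul_of_nonneg_right h5 h6
      _ = _ := by ring

theorem pf : S_UNION := by
  intro V _ _ G k T Δ B hB hΔ hS
  unfold surv
  have hN : 0 < (Fintype.card V : ℝ) := by exact_mod_cast Fintype.card_pos
  have h1 : ∑ z : Fin k → V, ⨆ s : V, W G k T z s ≤ ∑ z : Fin k → V, ∑ s : V, W G k T z s := by
    refine Finset.sum_le_sum fun z _ => ?_
    refine Real.iSup_le (fun s => ?_) (Finset.sum_nonneg fun s _ => W_nonneg G k T z s)
    exact Finset.single_le_sum (f := fun s => W G k T z s) (fun s _ => W_nonneg G k T z s)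
      (Finset.mem_univ s)
  rw [Finset.sum_comm] at h1
  have h2 : ∀ s ∈ (Finset.univ : Finset V), ∑ z : Fin k → V, W G k T z s ≤ (Δ : ℝ) ^ T * B ^ k := by
    intro s _
    have := claim G k Δ hΔ B hB T (fun _ => 1) s (fun _ => zero_le_one) (hS s)
    simpa using this
  have h3 := h1.trans (Finset.sum_le_card_nsmul _ _ _ h2)
  rw [nsmul_eq_mul, Finset.card_univ] at h3
  rw [div_le_iff₀ (by positivity), div_pow]
  refine h3.trans (le_of_eq ?_)
  field_simp

end Pool.Agent.W184.ZB.UNION2
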